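import Pool.Agent.Helper15.FC.St3

/-!
# Project FC, module COR: the correlation sum by finite Fourier analysis
-/

set_option autoImplicit false

namespace Pool.Agent.Helper3.FC

open Pool.Agent.Helper15.FC Polynomial

/-- every monic polynomial of degree `n` is `X^m G + g` in exactly one way -/
theorem sum_split {F : Type} [Field F] [Fintype F] (n m : ℕ) (hmn : m ≤ n) (Φ : F[X] → ℂ) :
    ∑ f ∈ Mn F n, Φ f = ∑ G ∈ Mn F (n - m), ∑ g ∈ Lw F m, Φ (X ^ m * G + g) := by
  rw [← Finset.sum_product']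
  have hXm : (X ^ m : F[X]).Monic := monic_X_pow m
  have hdeg : ∀ G g : F[X], G.Monic → g.degree < (m : WithBot ℕ) →
      g.degree < (X ^ m * G).degree := by
    intro G g hG hg
    refine lt_of_lt_of_le hg ?_
    rw [degree_mul, degree_X_pow, degree_eq_natDegree hG.ne_zero]
    exact_mod_cast Nat.le_add_right m G.natDegree
  refine Finset.sum_nbij' (fun f => (f /ₘ X ^ m, f %ₘ X ^ m))
    (fun p => X ^ m * p.1 + p.2) ?_ ?_ ?_ ?_ ?_
  · intro f hf
    obtain ⟨h1, h2⟩ := mem_Mn.1 hf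
    rw [Finset.mem_product]
    refine ⟨mem_Mn.2 ⟨?_, ?_⟩, mem_Lw.2 ?_⟩
    · have h3 : (X ^ m : F[X]).degree ≤ f.degree := by
        rw [degree_X_pow, degree_eq_natDegree h1.ne_zero, h2]
        exact_mod_cast hmn
      have h4 := leadingCoeff_divByMonic_of_monic hXm h3
      change (f /ₘ X ^ m).leadingCoeff = 1
      rw [h4]
      exact h1
    · change (f /ₘ X ^ m).natDegree = n - m
      rw [natDegree_divByMonic f hXm, natDegree_X_pow, h2]
    · have h5 := degree_modByMonic_lt f hXm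
      rwa [degree_X_pow] at h5
  · rintro ⟨G, g⟩ hp
    rw [Finset.mem_product] at hp
    obtain ⟨h1, h2⟩ := mem_Mn.1 hp.1
    have h3 := mem_Lw.1 hp.2
    have h4 := hdeg G g h1 h3
    have h5 : (X ^ m * G).Monic := hXm.mul h1
    refine mem_Mn.2 ⟨h5.add_of_left h4, ?_⟩
    change (X ^ m * G + g).natDegree = n
    rw [natDegree_add_eq_left_of_degree_lt h4, hXm.natDegree_mul h1, natDegree_X_pow, h2]
    omega
  · intro f _
    change X ^ m * (f /ₘ X ^ m) + f %ₘ X ^ m = f
    rw [add_comm]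
    exact modByMonic_add_div f (X ^ m)
  · rintro ⟨G, g⟩ hp
    rw [Finset.mem_product] at hp
    have h3 := mem_Lw.1 hp.2
    have h6 := div_modByMonic_unique (f := X ^ m * G + g) G g hXm
      ⟨by ring, by rw [degree_X_pow]; exact h3⟩
    exact Prod.ext h6.1 h6.2
  · intro f _
    have h7 : X ^ m * (f /ₘ X ^ m) + f %ₘ X ^ m = f := by
      rw [add_comm]
      exact modByMonic_add_div f (X ^ m)
    change Φ f = Φ (X ^ m * (f /ₘ X ^ m) + f %ₘ X ^ m)
    rw [h7]

theorem hCOR (hACF : StACF) (hFOU : StFOU) : StCOR := by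
  classical
  intro F _ _ k l n m H0 h hmn _ hh
  have hcast : (Corr F k l n (X ^ m * H0 + h) : ℂ) =
      ∑ f ∈ Mn F n, (dk k f : ℂ) * (dk l (f + (X ^ m * H0 + h)) : ℂ) := by
    unfold Corr
    push_cast
    rfl
  rw [hcast, sum_split n m hmn
    (fun f => (dk k f : ℂ) * (dk l (f + (X ^ m * H0 + h)) : ℂ)), Finset.mul_sum]
  have hG : ∀ G ∈ Mn F (n - m),
      (Fintype.card F : ℂ) ^ m * ∑ g ∈ Lw F m,
        ((dk k (X ^ m * G + g) : ℂ) * (dk l (X ^ m * G + g + (X ^ m * H0 + h)) : ℂ)) =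
      ∑ η ∈ ACf (X ^ m : F[X]),
        (starRingEnd ℂ) (Ae k m η G) * Ae l m η (G + H0) * η (-h) := by
    intro G _
    have h1 := hFOU F m (fun g => (dk k (X ^ m * G + g) : ℂ))
      (fun g => (dk l (X ^ m * (G + H0) + g) : ℂ)) h hh
    have h2 : ∀ g : F[X], X ^ m * G + g + (X ^ m * H0 + h) = X ^ m * (G + H0) + (g + h) := by
      intro g
      ring
    simp only [h2]
    rw [h1]
    refine Finset.sum_congr rfl fun η _ => ?_
    have h3 : ∑ g ∈ Lw F m, (dk k (X ^ m * G + g) : ℂ) * η (-g) =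
        (starRingEnd ℂ) (Ae k m η G) := by
      unfold Ae
      rw [map_sum]
      refine Finset.sum_congr rfl fun g _ => ?_
      rw [map_mul, Complex.conj_natCast, ((hACF F).1 η g).2]
    rw [h3]
    rfl
  rw [Finset.sum_congr rfl hG, Finset.sum_comm]
  refine Finset.sum_congr rfl fun η _ => ?_
  rw [Finset.sum_mul]

end Pool.Agent.Helper3.FC
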